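import Pool.Agent.helper7.AL.Spec

set_option autoImplicit false

/-!
# Project AL (MP_bf63dc_nt): row HST
-/

namespace Pool.Agent.AL

private lemma HST_loc (p : ℕ) (hp : p.Prime) (u₀ : ℤ) (hu : Even u₀) :
    ∃ r : ℤ, ¬ (p : ℤ) ∣ r ∧ ¬ (p : ℤ) ∣ r + u₀ := by
  by_cases h : (p : ℤ) ∣ 1 + u₀
  · refine ⟨2, ?_, ?_⟩
    · intro h2
      have h3 : p ∣ 2 := by exact_mod_cast h2
      have h4 : p = 2 := (Nat.prime_dvd_prime_iff_eq hp Nat.prime_two).1 h3
      subst h4
      obtain ⟨k, hk⟩ := hu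
      have h5 : ((2 : ℕ) : ℤ) = 2 := rfl
      rw [h5, hk] at h
      omega
    · intro h2
      have h3 : (p : ℤ) ∣ 1 := by
        have h4 := dvd_sub h2 h
        have h5 : 2 + u₀ - (1 + u₀) = 1 := by ring
        rwa [h5] at h4
      exact hp.one_lt.ne' (by exact_mod_cast Int.eq_one_of_dvd_one (by positivity) h3)
  · refine ⟨1, ?_, h⟩
    intro h3
    exact hp.one_lt.ne' (by exact_mod_cast Int.eq_one_of_dvd_one (by positivity) h3)

private lemma HST_ind (u₀ : ℤ) (hu : Even u₀) (S : Finset ℕ) (hS : ∀ l ∈ S, l.Prime) :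
    ∃ h : ℤ, ∀ l ∈ S, ¬ (l : ℤ) ∣ h ∧ ¬ (l : ℤ) ∣ h + u₀ := by
  classical
  induction S using Finset.induction_on with
  | empty => exact ⟨0, fun l hl => absurd hl (Finset.notMem_empty l)⟩
  | insert p S hpS ih =>
    obtain ⟨h', hh'⟩ := ih (fun l hl => hS l (Finset.mem_insert_of_mem hl))
    have hp := hS p (Finset.mem_insert_self p S)
    obtain ⟨r, hr1, hr2⟩ := HST_loc p hp u₀ hu
    have hcop : IsCoprime (((∏ l ∈ S, l : ℕ)) : ℤ) (p : ℤ) := by
      rw [Nat.isCoprime_iff_coprime]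
      apply Nat.Coprime.symm
      rw [Nat.coprime_prod_right_iff]
      intro l hl
      rw [Nat.coprime_primes hp (hS l (Finset.mem_insert_of_mem hl))]
      rintro rfl
      exact hpS hl
    obtain ⟨a, b, hab⟩ := hcop
    refine ⟨h' + a * ((∏ l ∈ S, l : ℕ) : ℤ) * (r - h'), ?_⟩
    intro l hl
    rw [Finset.mem_insert] at hl
    rcases hl with rfl | hl
    · have e : h' + a * ((∏ l ∈ S, l : ℕ) : ℤ) * (r - h') = r - (l : ℤ) * (b * (r - h')) := by
        linear_combination (r - h') * hab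
      rw [e]
      constructor
      · intro h1
        apply hr1
        have h2 := dvd_add h1 (Dvd.intro (b * (r - h')) rfl : (l : ℤ) ∣ (l : ℤ) * (b * (r - h')))
        have h3 : r - (l : ℤ) * (b * (r - h')) + (l : ℤ) * (b * (r - h')) = r := by ring
        rwa [h3] at h2
      · intro h1
        apply hr2
        have h2 := dvd_add h1 (Dvd.intro (b * (r - h')) rfl : (l : ℤ) ∣ (l : ℤ) * (b * (r - h')))
        have h3 : r - (l : ℤ) * (b * (r - h')) + u₀ + (l : ℤ) * (b * (r - h')) = r + u₀ := by ring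
        rwa [h3] at h2
    · obtain ⟨g1, g2⟩ := hh' l hl
      have hdl : (l : ℤ) ∣ a * ((∏ l ∈ S, l : ℕ) : ℤ) * (r - h') := by
        have h4 : (l : ℤ) ∣ ((∏ l ∈ S, l : ℕ) : ℤ) := by
          exact_mod_cast Finset.dvd_prod_of_mem (fun l : ℕ => l) hl
        exact Dvd.dvd.mul_right (Dvd.dvd.mul_left h4 a) _
      constructor
      · intro h1
        exact g1 ((dvd_add_left hdl).1 h1)
      · intro h1
        apply g2
        have h5 : h' + a * ((∏ l ∈ S, l : ℕ) : ℤ) * (r - h') + u₀ =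
            (h' + u₀) + a * ((∏ l ∈ S, l : ℕ) : ℤ) * (r - h') := by ring
        rw [h5] at h1
        exact (dvd_add_left hdl).1 h1

private lemma HST_cop (P : ℕ) (hP : 0 < P) (h : ℤ)
    (hh : ∀ l ∈ P.primeFactors, ¬ (l : ℤ) ∣ h) : IsCoprime h (P : ℤ) := by
  rw [Int.isCoprime_iff_gcd_eq_one]
  by_contra hne
  obtain ⟨p, hp, hpd⟩ := Nat.exists_prime_and_dvd hne
  have h1 : (p : ℤ) ∣ h := by
    rw [Int.natCast_dvd]
    exact hpd.trans (Nat.gcd_dvd_left _ _)
  have h2 : p ∣ P := by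
    have := hpd.trans (Nat.gcd_dvd_right _ _)
    rwa [Int.natAbs_natCast] at this
  exact hh p (Nat.mem_primeFactors.2 ⟨hp, h2, hP.ne'⟩) h1

theorem HST : HST_stmt := by
  intro P u₀ hP hu
  obtain ⟨h, hh⟩ := HST_ind u₀ hu P.primeFactors (fun l hl => Nat.prime_of_mem_primeFactors hl)
  exact ⟨h, HST_cop P hP h (fun l hl => (hh l hl).1),
    HST_cop P hP (h + u₀) (fun l hl => (hh l hl).2)⟩

end Pool.Agent.AL
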